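import Pool.Agent.T2H38.UN.Core
import Pool.Agent.R937.PZ.Mot

/-!
# Finiteness of unramified cohomology of degree three for varieties over finite fields that are
dominated by surfaces, by abelian varieties of dimension at most five and by products of elliptic
curves, abelian surfaces and non-ordinary threefolds

An abelian variety over the field with `p ^ a` elements is modelled by `RedAV` (Honda, Tate): a
finite product of CM types `(E i, Φ i)` with Weil numbers `π i ∈ E i` that satisfy the formula of
Shimura and Taniyama; its cohomology of degree `n`, with coefficients in an algebraically closed field
`Ω`, consists of the alternating `n`-forms on the Tate module `Ω ⊗ H_1`, on which the Frobenius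
endomorphism acts by `π`.

We consider (`IsGoodAVP`) the abelian varieties `Y` of the following kinds:

* all abelian varieties of dimension at most five;
* the abelian varieties that are isogenous, over an algebraic closure, to a product of a supersingular
  abelian variety of any dimension and of abelian varieties of dimension at most three (any number, any
  multiplicity), such that any two factors of dimension three whose CM fields have the same Galois
  closure satisfy one of the following: their fields are Galois over `ℚ`; one of them is supersingular;
  they are isogenous; neither of them is ordinary and their `p`-ranks are not `{1, 2}`.

So `Y` may be any product of elliptic curves, of abelian surfaces and of abelian threefolds that all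
have `p`-rank two, or that all have `p`-rank zero or one.

`Homology Ω V` are data of motivic homology `M X n j = H_n^M(X, ℚ(j)) = CH_j(X, n - 2 j) ⊗ ℚ` (higher
Chow groups) and of `ℓ`-adic homology `E X n j = H_n(X, ℚ_ℓ(j))` of schemes `X : V` of finite type over
finite fields, with the Frobenius and the regulator. Let `𝒢` (`Generated`) be the smallest class of
schemes that contains those with the homology groups of the abelian varieties above, that is closed
under direct summands of finite sums of twists of motives, and that contains all of a closed subscheme
`Z` of `X`, `X` and `X ∖ Z` if it contains two of them. For example, it contains all products of curves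
of genus at most two, symmetric powers of such products, the varieties whose motive is a direct summand
of that of an abelian variety of dimension at most five, projective bundles and blow-ups of smooth
members along smooth members.

Let `𝒟` (`Dominated`) be the smallest class of varieties which contains all smooth projective varieties
(`S`) of dimension at most two, all smooth projective varieties in `𝒢`, and with `Y` each smooth
projective `X` such that, up to a positive multiple, the identity of `H³_nr(X, ℚ/ℤ(2))` factors through
`H³_nr(Y, ℚ/ℤ(2))`, and the identity of `CH²(X)` is the sum of a map which factors through `CH²(Y)` and of
a map which factors through a finitely generated group (`CyclesFrom`). By Bloch and Srinivas this holds if the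
zero-cycles on `X` over a universal domain come from `Y` (up to multiples). So `𝒟` contains with `Y`
the smooth projective varieties dominated by `Y` or birational to `Y`, and those that are fibred over `Y`
with rationally chain connected generic fibre. In dimension three `𝒟` contains for instance all
smooth projective threefolds with a dominant rational map from a product of three curves of genus at
most two, all desingularized quotients (if they exist) of abelian threefolds by finite groups (of
Kummer or of Calabi-Yau type), and all conic bundles over surfaces.

**Theorem.** For all `X` in `𝒟` the group `H³_nr(X, ℚ/ℤ(2))` is finite, and `CH²(X)` is finitely
generated.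

The facts about the two groups which are used are in `IsCodimTwo`: the exact sequences of Geisser and
of Kahn for the étale motivic cohomology group `H⁴_ét(X, ℤ(2))`, the theorem of Geisser and Kahn that
the Weil-étale motivic cohomology groups are finitely generated if the conjecture `TB` of Tate and
Beilinson holds for `X` (in all degrees), purity (Deligne), the finiteness of the torsion of `CH²(X)`
(Colliot-Thélène, Sansuc, Soulé; Gros, Suwa), and the case of surfaces (the same, Kato, Saito). If `TB` holds for
`X` then the rational motivic cohomology group `H²(X, ℚ(2))` is zero by purity; hence
`H⁴_ét(X, ℤ(2))` is a subgroup of `H⁴_W(X, ℤ(2))`, and so finitely generated, and so are its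
subgroup `CH²(X)` and its quotient `H³_nr(X, ℚ/ℤ(2))`, which is a torsion group, and so finite. In the
step from `Y` to `X` the finiteness of the `n`-torsion of `H³_nr(X, ℚ/ℤ(2))` is deduced from that of
`H⁴_ét(X, ℤ(2))` and from the finite generation of `CH²(X)`.

Properties of the theory of cycles that are used for the abelian varieties `Y` (`IsChowS`,
`IsMotivic`): Poincaré duality, the formal properties of correspondences, the nilpotence of
homologically trivial correspondences (Kimura), the operation of the Frobenius endomorphism on higher
Chow groups, the vanishing of the higher rational `K`-groups of a finite field (Quillen), and the
algebraicity of the classes in `AlgS` (theorems of Tate, Markman and Ramón Marí). That all Tate classes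
on all powers of `Y` are in `AlgS`, and the conjecture `TB` for the members of `𝒢`, are in the starting
files (`Pool.Agent.R937.PG.tb_goodP`).
-/

set_option autoImplicit false

namespace Pool.Agent.Results.MP_859dd5_ag.NonOrdinaryThreefolds

open Pool.Agent.W495.TA Pool.Agent.W495.FM Pool.Agent.R937.PG Pool.Agent.T2H38.UN

/-- Finiteness of `H³_nr(X, ℚ/ℤ(2))` and finite generation of `CH²(X)` for the smooth projective
varieties over finite fields that are dominated (in the sense of zero-cycles) by surfaces, abelian
varieties of dimension at most five and products of elliptic curves, abelian surfaces and non-ordinary
threefolds. -/
theorem result (p : ℕ) [Fact p.Prime] (ν : PadicAlgCl p ≃+* ℂ) (Ω : Type) [Field Ω]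
    [IsAlgClosed Ω] [CharZero Ω] (V : Type) (T : Homology Ω V) (hT : IsHomology T)
    (S : V → Prop) (dim : V → ℤ) (W : V → ℤ → ℤ → Type) [∀ X n i, AddCommGroup (W X n i)]
    (D : CodimTwo V) (hD : IsCodimTwo T S dim W D) (X : V)
    (hX : Dominated D S
      (fun Y => S Y ∧ (dim Y ≤ 2 ∨ Generated T (IsGoodAbelianP p ν T) Y)) X) :
    Fin3 D X :=
  fin3_of_dominated hT hD (fun _ h => tb_goodP hT h) hX

end Pool.Agent.Results.MP_859dd5_ag.NonOrdinaryThreefolds
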